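import Mathlib

set_option autoImplicit false

/-!
# Coarseness: definitions and general lemmas
-/

open SimpleGraph

namespace Pool.Agent.Y296.Coarse

/-- `G` contains a subdivision of `H`: there are distinct branch vertices `f w` of `G`, one for
each vertex `w` of `H`, and for every edge `a b` of `H` a path of `G` from `f a` to `f b`, such
that the only branch vertices on the path are its two ends, and paths of different edges of `H`
meet only in vertices that are ends of both. -/
def ContainsSubdivision {W V : Type} (H : SimpleGraph W) (G : SimpleGraph V) : Prop :=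
  ∃ (f : W → V) (P : ∀ a b : W, H.Adj a b → G.Walk (f a) (f b)),
    Function.Injective f ∧
    (∀ a b h, (P a b h).IsPath) ∧
    (∀ a b h w, f w ∈ (P a b h).support → w = a ∨ w = b) ∧
    (∀ a b c d h h', s(a, b) ≠ s(c, d) → ∀ v, v ∈ (P a b h).support →
      v ∈ (P c d h').support → (v = f a ∨ v = f b) ∧ (v = f c ∨ v = f d))

/-- A graph is nonplanar if it contains a subdivision of `K₅` or of `K₃,₃` (Kuratowski). -/
def Nonplanar {V : Type} (G : SimpleGraph V) : Prop :=
  ContainsSubdivision (⊤ : SimpleGraph (Fin 5)) G ∨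
    ContainsSubdivision (completeBipartiteGraph (Fin 3) (Fin 3)) G

/-- There are `k` pairwise edge-disjoint nonplanar subgraphs of `G`. -/
def HasPacking {V : Type} (G : SimpleGraph V) (k : ℕ) : Prop :=
  ∃ H : Fin k → G.Subgraph, (∀ i, Nonplanar (H i).coe) ∧
    ∀ i j, i ≠ j → Disjoint (H i).edgeSet (H j).edgeSet

/-- The coarseness of `G`: the largest `k` such that `G` contains `k` pairwise edge-disjoint
nonplanar subgraphs. -/
noncomputable def coarseness {V : Type} (G : SimpleGraph V) : ℕ :=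
  sSup {k | HasPacking G k}

/-! ### Subdivisions -/

theorem ContainsSubdivision.map {W V V' : Type} {H : SimpleGraph W} {G : SimpleGraph V}
    {G' : SimpleGraph V'} (h : ContainsSubdivision H G) (φ : G →g G')
    (hφ : Function.Injective φ) : ContainsSubdivision H G' := by
  obtain ⟨f, P, hf, hp, hb, hd⟩ := h
  refine ⟨fun w => φ (f w), fun a b hab => (P a b hab).map φ, hφ.comp hf, ?_, ?_, ?_⟩
  · intro a b hab
    exact (hp a b hab).map hφ
  · intro a b hab w hw
    rw [Walk.support_map, List.mem_map] at hw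
    obtain ⟨x, hx, hxw⟩ := hw
    have := hφ hxw
    subst this
    exact hb a b hab w hx
  · intro a b c d h h' hne v hv hv'
    rw [Walk.support_map, List.mem_map] at hv hv'
    obtain ⟨x, hx, rfl⟩ := hv
    obtain ⟨y, hy, hyx⟩ := hv'
    have := hφ hyx
    subst this
    obtain ⟨h1, h2⟩ := hd a b c d h h' hne y hx hy
    exact ⟨h1.imp (congrArg φ) (congrArg φ), h2.imp (congrArg φ) (congrArg φ)⟩

theorem Nonplanar.map {V V' : Type} {G : SimpleGraph V} {G' : SimpleGraph V'}
    (h : Nonplanar G) (φ : G →g G') (hφ : Function.Injective φ) : Nonplanar G' :=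
  h.imp (fun h => h.map φ hφ) (fun h => h.map φ hφ)

/-- A subdivision of `H` in which at most the edge `x₀ y₀` is subdivided, by the vertex `z`. -/
theorem subdivision_one {W V : Type} [DecidableEq W] (H : SimpleGraph W) (G : SimpleGraph V)
    (f : W → V) (hf : Function.Injective f) (x₀ y₀ : W) (z : V) (hz : ∀ w, f w ≠ z)
    (h1 : G.Adj (f x₀) z) (h2 : G.Adj (f y₀) z)
    (hadj : ∀ a b, H.Adj a b → s(a, b) ≠ s(x₀, y₀) → G.Adj (f a) (f b)) :
    ContainsSubdivision H G := by
  have key : ∀ a b, H.Adj a b → ∃ p : G.Walk (f a) (f b), p.IsPath ∧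
      p.support = if s(a, b) = s(x₀, y₀) then [f a, z, f b] else [f a, f b] := by
    intro a b hab
    have hne : f a ≠ f b := fun h => hab.ne (hf h)
    by_cases hs : s(a, b) = s(x₀, y₀)
    · have h3 : G.Adj (f a) z ∧ G.Adj z (f b) := by
        rw [Sym2.eq_iff] at hs
        rcases hs with ⟨rfl, rfl⟩ | ⟨rfl, rfl⟩
        · exact ⟨h1, h2.symm⟩
        · exact ⟨h2, h1.symm⟩
      refine ⟨Walk.cons h3.1 (Walk.cons h3.2 Walk.nil), ?_, ?_⟩
      · rw [Walk.isPath_def]
        simp [hne, hz a, Ne.symm (hz b)]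
      · simp [hs]
    · refine ⟨(hadj a b hab hs).toWalk, Walk.IsPath.of_adj _, ?_⟩
      simp [hs]
  choose P hP hS using key
  refine ⟨f, P, hf, hP, ?_, ?_⟩
  · intro a b h w hw
    rw [hS] at hw
    split_ifs at hw
    · simp only [List.mem_cons, List.not_mem_nil, or_false] at hw
      rcases hw with hw | hw | hw
      · exact Or.inl (hf hw)
      · exact absurd hw (hz w)
      · exact Or.inr (hf hw)
    · simp only [List.mem_cons, List.not_mem_nil, or_false] at hw
      rcases hw with hw | hw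
      · exact Or.inl (hf hw)
      · exact Or.inr (hf hw)
  · intro a b c d h h' hne v hv hv'
    rw [hS] at hv hv'
    by_cases hs : s(a, b) = s(x₀, y₀)
    · have hs' : s(c, d) ≠ s(x₀, y₀) := fun h => hne (hs.trans h.symm)
      rw [if_neg hs'] at hv'
      rw [if_pos hs] at hv
      simp only [List.mem_cons, List.not_mem_nil, or_false] at hv hv'
      refine ⟨?_, hv'⟩
      rcases hv with hv | hv | hv
      · exact Or.inl hv
      · exfalso
        rcases hv' with hv' | hv'
        · exact hz c (hv'.symm.trans hv)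
        · exact hz d (hv'.symm.trans hv)
      · exact Or.inr hv
    · rw [if_neg hs] at hv
      simp only [List.mem_cons, List.not_mem_nil, or_false] at hv
      refine ⟨hv, ?_⟩
      split_ifs at hv'
      · simp only [List.mem_cons, List.not_mem_nil, or_false] at hv'
        rcases hv' with hv' | hv' | hv'
        · exact Or.inl hv'
        · exfalso
          rcases hv with hv | hv
          · exact hz a (hv.symm.trans hv')
          · exact hz b (hv.symm.trans hv')
        · exact Or.inr hv'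
      · simp only [List.mem_cons, List.not_mem_nil, or_false] at hv'
        exact hv'

theorem subdivision_of_copy {W V : Type} (H : SimpleGraph W) (G : SimpleGraph V) (f : W → V)
    (hf : Function.Injective f) (hadj : ∀ a b, H.Adj a b → G.Adj (f a) (f b)) :
    ContainsSubdivision H G := by
  refine ⟨f, fun a b h => (hadj a b h).toWalk, hf, ?_, ?_, ?_⟩
  · intro a b h
    exact Walk.IsPath.of_adj (hadj a b h)
  · intro a b h w hw
    simp only [Adj.toWalk, Walk.support_cons, Walk.support_nil, List.mem_cons,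
      List.not_mem_nil, or_false] at hw
    rcases hw with hw | hw
    · exact Or.inl (hf hw)
    · exact Or.inr (hf hw)
  · intro a b c d h h' _ v hv hv'
    simp only [Adj.toWalk, Walk.support_cons, Walk.support_nil, List.mem_cons,
      List.not_mem_nil, or_false] at hv hv'
    exact ⟨hv, hv'⟩

theorem elim_injective {V : Type} {a b : Fin 3 → V} (ha : Function.Injective a)
    (hb : Function.Injective b) (hab : ∀ i j, a i ≠ b j) :
    Function.Injective (Sum.elim a b) := by
  rintro (i | i) (j | j) h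
  · exact congrArg _ (ha h)
  · exact absurd h (hab i j)
  · exact absurd h.symm (hab j i)
  · exact congrArg _ (hb h)

theorem nonplanar_K33 {V : Type} (G : SimpleGraph V) (a b : Fin 3 → V)
    (ha : Function.Injective a) (hb : Function.Injective b)
    (h : ∀ i j, G.Adj (a i) (b j)) : Nonplanar G := by
  right
  refine subdivision_of_copy _ _ (Sum.elim a b)
    (elim_injective ha hb (fun i j => (h i j).ne)) ?_
  rintro (i | i) (j | j) hij
  · simp at hij
  · exact h i j
  · exact (h j i).symm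
  · simp at hij

theorem nonplanar_K5 {V : Type} (G : SimpleGraph V) (a : Fin 5 → V)
    (h : ∀ i j, i ≠ j → G.Adj (a i) (a j)) : Nonplanar G := by
  left
  refine subdivision_of_copy _ _ a ?_ (fun i j hij => h i j hij.ne)
  intro i j hij
  by_contra hne
  exact (h i j hne).ne hij

/-- A once subdivided `K₃,₃`. -/
theorem nonplanar_K33_sub {V : Type} (G : SimpleGraph V) (a b : Fin 3 → V) (z : V)
    (ha : Function.Injective a) (hb : Function.Injective b) (hab : ∀ i j, a i ≠ b j)
    (haz : ∀ i, a i ≠ z) (hbz : ∀ i, b i ≠ z)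
    (h : ∀ i j, ¬ (i = 0 ∧ j = 0) → G.Adj (a i) (b j))
    (h1 : G.Adj (a 0) z) (h2 : G.Adj (b 0) z) : Nonplanar G := by
  right
  refine subdivision_one _ _ (Sum.elim a b) (elim_injective ha hb hab)
    (Sum.inl 0) (Sum.inr 0) z ?_ h1 h2 ?_
  · rintro (i | i)
    · exact haz i
    · exact hbz i
  · rintro (i | i) (j | j) hij hs
    · simp at hij
    · refine h i j (fun hh => hs ?_)
      rw [hh.1, hh.2]
    · refine (h j i (fun hh => hs ?_)).symm
      rw [hh.1, hh.2]
      exact Sym2.eq_swap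
    · simp at hij

/-! ### Nonplanar graphs have at least nine edges -/

theorem first_edges {W V ι : Type} {H : SimpleGraph W} {G : SimpleGraph V}
    (h : ContainsSubdivision H G) (x y : ι → W) (hxy : ∀ i, H.Adj (x i) (y i))
    (hinj : ∀ i j, s(x i, y i) = s(x j, y j) → i = j) :
    ∃ e : ι → Sym2 V, Function.Injective e ∧ ∀ i, e i ∈ G.edgeSet := by
  obtain ⟨f, P, hf, hp, hb, hd⟩ := h
  have hnn : ∀ i, ¬ (P _ _ (hxy i)).Nil := by
    intro i
    exact Walk.not_nil_of_ne (fun h => (hxy i).ne (hf h))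
  refine ⟨fun i => s(f (x i), (P _ _ (hxy i)).snd), ?_, ?_⟩
  · intro i j hij
    by_contra hne
    have hs : s(x i, y i) ≠ s(x j, y j) := fun h => hne (hinj i j h)
    have ai := (P _ _ (hxy i)).adj_snd (hnn i)
    have aj := (P _ _ (hxy j)).adj_snd (hnn j)
    have mi1 : f (x i) ∈ (P _ _ (hxy i)).support := Walk.start_mem_support _
    have mi2 : (P _ _ (hxy i)).snd ∈ (P _ _ (hxy i)).support := Walk.getVert_mem_support _ _
    have mj1 : f (x j) ∈ (P _ _ (hxy j)).support := Walk.start_mem_support _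
    have mj2 : (P _ _ (hxy j)).snd ∈ (P _ _ (hxy j)).support := Walk.getVert_mem_support _ _
    have key : ∀ u v : V, u ≠ v → u ∈ (P _ _ (hxy i)).support → v ∈ (P _ _ (hxy i)).support →
        u ∈ (P _ _ (hxy j)).support → v ∈ (P _ _ (hxy j)).support → False := by
      intro u v huv h1 h2 h3 h4
      obtain ⟨k1, k2⟩ := hd _ _ _ _ (hxy i) (hxy j) hs u h1 h3
      obtain ⟨k3, k4⟩ := hd _ _ _ _ (hxy i) (hxy j) hs v h2 h4
      apply hs
      rw [Sym2.eq_iff]
      rcases k1 with k1 | k1 <;> rcases k2 with k2 | k2 <;> rcases k3 with k3 | k3 <;>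
        rcases k4 with k4 | k4 <;>
        first
        | exact absurd (k1.trans k3.symm) huv
        | exact absurd (k2.trans k4.symm) huv
        | exact Or.inl ⟨hf (k1.symm.trans k2), hf (k3.symm.trans k4)⟩
        | exact Or.inl ⟨hf (k3.symm.trans k4), hf (k1.symm.trans k2)⟩
        | exact Or.inr ⟨hf (k1.symm.trans k2), hf (k3.symm.trans k4)⟩
        | exact Or.inr ⟨hf (k3.symm.trans k4), hf (k1.symm.trans k2)⟩
    have hij' : s(f (x i), (P _ _ (hxy i)).snd) = s(f (x j), (P _ _ (hxy j)).snd) := hij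
    rw [Sym2.eq_iff] at hij'
    rcases hij' with ⟨h1, h2⟩ | ⟨h1, h2⟩
    · exact key _ _ ai.ne mi1 mi2 (by rw [h1]; exact mj1) (by rw [h2]; exact mj2)
    · exact key _ _ ai.ne mi1 mi2 (by rw [h1]; exact mj2) (by rw [h2]; exact mj1)
  · intro i
    exact (P _ _ (hxy i)).adj_snd (hnn i)

theorem nine_edges {V : Type} {G : SimpleGraph V} (h : Nonplanar G) :
    ∃ e : Fin 9 → Sym2 V, Function.Injective e ∧ ∀ i, e i ∈ G.edgeSet := by
  rcases h with h | h
  · exact first_edges h (![0, 0, 0, 0, 1, 1, 1, 2, 2] : Fin 9 → Fin 5)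
      (![1, 2, 3, 4, 2, 3, 4, 3, 4] : Fin 9 → Fin 5) (by decide) (by decide)
  · exact first_edges h (fun i : Fin 9 => Sum.inl (![0, 0, 0, 1, 1, 1, 2, 2, 2] i : Fin 3))
      (fun i : Fin 9 => Sum.inr (![0, 1, 2, 0, 1, 2, 0, 1, 2] i : Fin 3))
      (by intro i; simp) (by decide)

theorem packing_le {V : Type} [Fintype V] [DecidableEq V] (G : SimpleGraph V)
    [DecidableRel G.Adj] {k : ℕ} (h : HasPacking G k) : k * 9 ≤ G.edgeFinset.card := by
  obtain ⟨H, hH, hdisj⟩ := h
  have h9 := fun i => nine_edges (hH i)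
  choose e he hem using h9
  have hmem : ∀ i j, Sym2.map Subtype.val (e i j) ∈ (H i).edgeSet := by
    intro i j
    have := hem i j
    revert this
    generalize e i j = q
    induction q with
    | h u v => intro h; exact h
  have hinj : ∀ i, Function.Injective (fun j => Sym2.map Subtype.val (e i j)) := fun i =>
    (Sym2.map.injective Subtype.val_injective).comp (he i)
  let g : Fin k × Fin 9 → {x // x ∈ G.edgeFinset} := fun q =>
    ⟨Sym2.map Subtype.val (e q.1 q.2), by
      rw [mem_edgeFinset]; exact (H q.1).edgeSet_subset (hmem q.1 q.2)⟩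
  have hg : Function.Injective g := by
    rintro ⟨i, j⟩ ⟨i', j'⟩ hh
    have hh' : Sym2.map Subtype.val (e i j) = Sym2.map Subtype.val (e i' j') :=
      congrArg Subtype.val hh
    have hi : i = i' := by
      by_contra hne
      exact Set.disjoint_left.mp (hdisj i i' hne) (hmem i j) (hh' ▸ hmem i' j')
    subst hi
    exact Prod.ext rfl (hinj i hh')
  have := Fintype.card_le_of_injective g hg
  rwa [Fintype.card_prod, Fintype.card_fin, Fintype.card_fin, Fintype.card_coe] at this

theorem packing_le_top {p k : ℕ} (h : HasPacking (⊤ : SimpleGraph (Fin p)) k) :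
    k * 9 ≤ p.choose 2 := by
  have := packing_le _ h
  rwa [card_edgeFinset_top_eq_card_choose_two, Fintype.card_fin] at this

theorem coarseness_eq {p k : ℕ} (h : HasPacking (⊤ : SimpleGraph (Fin p)) k)
    (hk : p.choose 2 < (k + 1) * 9) : coarseness (⊤ : SimpleGraph (Fin p)) = k := by
  have hub : ∀ j ∈ {k | HasPacking (⊤ : SimpleGraph (Fin p)) k}, j ≤ k := by
    intro j hj
    have := packing_le_top hj
    omega
  exact le_antisymm (csSup_le ⟨k, h⟩ hub) (le_csSup ⟨k, hub⟩ h)

theorem le_coarseness {p k : ℕ} (h : HasPacking (⊤ : SimpleGraph (Fin p)) k) :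
    k ≤ coarseness (⊤ : SimpleGraph (Fin p)) := by
  refine le_csSup ⟨p.choose 2, ?_⟩ h
  intro j hj
  have := packing_le_top hj
  omega

/-! ### Packings with arbitrary index types -/

/-- Edge-disjoint nonplanar graphs inside `G`, indexed by `ι`. -/
def Packs {V : Type} (G : SimpleGraph V) (ι : Type) : Prop :=
  ∃ H : ι → SimpleGraph V, (∀ i, H i ≤ G) ∧ (∀ i, Nonplanar (H i)) ∧
    ∀ i j u v, (H i).Adj u v → (H j).Adj u v → i = j

theorem Packs.hasPacking {V : Type} {G : SimpleGraph V} {k : ℕ} (h : Packs G (Fin k)) :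
    HasPacking G k := by
  obtain ⟨H, hle, hnp, hd⟩ := h
  refine ⟨fun i => SimpleGraph.toSubgraph (H i) (hle i), ?_, ?_⟩
  · intro i
    refine (hnp i).map (G' := (SimpleGraph.toSubgraph (H i) (hle i)).coe)
      ⟨fun v => ⟨v, Set.mem_univ v⟩, ?_⟩ ?_
    · intro a b hab
      exact hab
    · intro a b hab
      exact congrArg Subtype.val hab
  · intro i j hij
    rw [Set.disjoint_left]
    intro q hi hj
    induction q with
    | h u v => exact hij (hd i j u v hi hj)

theorem Packs.mono {V ι : Type} {G G' : SimpleGraph V} (h : Packs G ι) (hle : G ≤ G') :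
    Packs G' ι := by
  obtain ⟨H, h1, h2, h3⟩ := h
  exact ⟨H, fun i => (h1 i).trans hle, h2, h3⟩

theorem Packs.reindex {V ι κ : Type} {G : SimpleGraph V} (h : Packs G ι) (e : κ ≃ ι) :
    Packs G κ := by
  obtain ⟨H, h1, h2, h3⟩ := h
  exact ⟨fun i => H (e i), fun i => h1 _, fun i => h2 _, fun i j u v hi hj =>
    e.injective (h3 _ _ u v hi hj)⟩

theorem Packs.map {V W ι : Type} {G : SimpleGraph V} (h : Packs G ι) (f : V ↪ W) :
    Packs (G.map f) ι := by
  obtain ⟨H, h1, h2, h3⟩ := h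
  refine ⟨fun i => (H i).map f, fun i => SimpleGraph.map_monotone f (h1 i), fun i => ?_, ?_⟩
  · exact (h2 i).map (Embedding.map f (H i)).toHom f.injective
  · intro i j u v hi hj
    rw [SimpleGraph.map_adj] at hi hj
    obtain ⟨a, b, hab, rfl, rfl⟩ := hi
    obtain ⟨a', b', hab', h4, h5⟩ := hj
    have h4' := f.injective h4
    have h5' := f.injective h5
    subst h4'
    subst h5'
    exact h3 i j _ _ hab hab'

theorem Packs.sum {V ι κ : Type} {G₁ G₂ G : SimpleGraph V} (h₁ : Packs G₁ ι) (h₂ : Packs G₂ κ)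
    (hd : ∀ u v, G₁.Adj u v → ¬ G₂.Adj u v) (hl₁ : G₁ ≤ G) (hl₂ : G₂ ≤ G) :
    Packs G (ι ⊕ κ) := by
  obtain ⟨H, h1, h2, h3⟩ := h₁
  obtain ⟨K, k1, k2, k3⟩ := h₂
  refine ⟨Sum.elim H K, ?_, ?_, ?_⟩
  · rintro (i | i)
    · exact (h1 i).trans hl₁
    · exact (k1 i).trans hl₂
  · rintro (i | i)
    · exact h2 i
    · exact k2 i
  · rintro (i | i) (j | j) u v hi hj
    · exact congrArg _ (h3 i j u v hi hj)
    · exact absurd (k1 j hj) (hd u v (h1 i hi))
    · exact absurd (k1 i hi) (hd u v (h1 j hj))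
    · exact congrArg _ (k3 i j u v hi hj)

/-- `K_p` contains `k` edge-disjoint nonplanar graphs. -/
def P (p k : ℕ) : Prop := Packs (⊤ : SimpleGraph (Fin p)) (Fin k)

theorem P_of_packs {V ι : Type} [Fintype V] [Fintype ι] {p k : ℕ}
    (h : Packs (⊤ : SimpleGraph V) ι) (hp : Fintype.card V = p) (hk : Fintype.card ι = k) :
    P p k := by
  have e : V ≃ Fin p := Fintype.equivFinOfCardEq hp
  have e' : ι ≃ Fin k := Fintype.equivFinOfCardEq hk
  exact ((h.map e.toEmbedding).mono le_top).reindex e'.symm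

theorem packs_of_P {V : Type} [Fintype V] {p k : ℕ} (h : P p k) (hp : Fintype.card V = p) :
    Packs (⊤ : SimpleGraph V) (Fin k) := by
  have e : V ≃ Fin p := Fintype.equivFinOfCardEq hp
  exact (h.map e.symm.toEmbedding).mono le_top

/-- The complete bipartite graph between two sets. -/
def bip {V : Type} (A B : Set V) (hAB : Disjoint A B) : SimpleGraph V where
  Adj u v := (u ∈ A ∧ v ∈ B) ∨ (u ∈ B ∧ v ∈ A)
  symm := ⟨fun _ _ h => h.symm.imp (fun h => h.symm) (fun h => h.symm)⟩
  loopless := ⟨fun _ h => h.elim (fun h => Set.disjoint_left.mp hAB h.1 h.2)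
    (fun h => Set.disjoint_left.mp hAB h.2 h.1)⟩

/-- Two sets cut into triples: the complete bipartite graph between them consists of copies of
`K₃,₃`. -/
theorem packs_bip {V M M' : Type} (f : M × Fin 3 → V) (g : M' × Fin 3 → V)
    (hf : Function.Injective f) (hg : Function.Injective g)
    (hfg : Disjoint (Set.range f) (Set.range g)) :
    Packs (bip (Set.range f) (Set.range g) hfg) (M × M') := by
  have hne : ∀ a b, f a ≠ g b := fun a b h =>
    Set.disjoint_left.mp hfg ⟨a, rfl⟩ ⟨b, h.symm⟩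
  refine ⟨fun q => bip (Set.range fun i => f (q.1, i)) (Set.range fun i => g (q.2, i)) ?_,
    ?_, ?_, ?_⟩
  · refine hfg.mono ?_ ?_
    · rintro _ ⟨i, rfl⟩; exact ⟨_, rfl⟩
    · rintro _ ⟨i, rfl⟩; exact ⟨_, rfl⟩
  · intro q u v h
    rcases h with ⟨⟨i, rfl⟩, ⟨j, rfl⟩⟩ | ⟨⟨i, rfl⟩, ⟨j, rfl⟩⟩
    · exact Or.inl ⟨⟨_, rfl⟩, ⟨_, rfl⟩⟩
    · exact Or.inr ⟨⟨_, rfl⟩, ⟨_, rfl⟩⟩
  · intro q
    refine nonplanar_K33 _ (fun i => f (q.1, i)) (fun i => g (q.2, i)) ?_ ?_ ?_
    · intro i j hij
      exact (Prod.ext_iff.mp (hf hij)).2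
    · intro i j hij
      exact (Prod.ext_iff.mp (hg hij)).2
    · intro i j
      exact Or.inl ⟨⟨i, rfl⟩, ⟨j, rfl⟩⟩
  · rintro ⟨a, a'⟩ ⟨b, b'⟩ u v h h'
    rcases h with ⟨⟨i, rfl⟩, ⟨j, rfl⟩⟩ | ⟨⟨i, rfl⟩, ⟨j, rfl⟩⟩ <;>
      rcases h' with ⟨⟨i', h1⟩, ⟨j', h2⟩⟩ | ⟨⟨i', h1⟩, ⟨j', h2⟩⟩
    · exact Prod.ext (Prod.ext_iff.mp (hf h1)).1.symm (Prod.ext_iff.mp (hg h2)).1.symm
    · exact absurd h1.symm (hne _ _)
    · exact absurd h1 (hne _ _)
    · exact Prod.ext (Prod.ext_iff.mp (hf h2)).1.symm (Prod.ext_iff.mp (hg h1)).1.symm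

/-- The vertices of two complete graphs with one common vertex. -/
abbrev GV (m m' : ℕ) : Type := Option ((Fin m × Fin 3) ⊕ (Fin m' × Fin 3))

/-- Gluing two complete graphs at one vertex. -/
theorem P_glue {m m' k k' : ℕ} (h : P (3 * m + 1) k) (h' : P (3 * m' + 1) k') :
    P (3 * (m + m') + 1) (k + k' + m * m') := by
  let e1 : Option (Fin m × Fin 3) ↪ (GV m m') :=
    ⟨Option.map Sum.inl, Option.map_injective Sum.inl_injective⟩
  let e2 : Option (Fin m' × Fin 3) ↪ (GV m m') :=
    ⟨Option.map Sum.inr, Option.map_injective Sum.inr_injective⟩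
  have c1 : Fintype.card (Option (Fin m × Fin 3)) = 3 * m + 1 := by
    simp [mul_comm]
  have c2 : Fintype.card (Option (Fin m' × Fin 3)) = 3 * m' + 1 := by
    simp [mul_comm]
  have p1 := (packs_of_P h c1).map e1
  have p2 := (packs_of_P h' c2).map e2
  have hd : Disjoint (Set.range fun x : Fin m × Fin 3 => (some (Sum.inl x) : (GV m m')))
      (Set.range fun x : Fin m' × Fin 3 => (some (Sum.inr x) : (GV m m'))) := by
    rw [Set.disjoint_left]
    rintro _ ⟨x, rfl⟩ ⟨y, hy⟩
    simp at hy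
  have p3 := packs_bip (fun x : Fin m × Fin 3 => (some (Sum.inl x) : (GV m m')))
    (fun x : Fin m' × Fin 3 => (some (Sum.inr x) : (GV m m')))
    (fun x y hxy => Sum.inl_injective (Option.some_injective _ hxy))
    (fun x y hxy => Sum.inr_injective (Option.some_injective _ hxy)) hd
  have p12 : Packs ((⊤ : SimpleGraph (Option (Fin m × Fin 3))).map e1 ⊔
      (⊤ : SimpleGraph (Option (Fin m' × Fin 3))).map e2) (Fin k ⊕ Fin k') := by
    refine p1.sum p2 ?_ le_sup_left le_sup_right
    intro u v hu hv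
    rw [SimpleGraph.map_adj] at hu hv
    obtain ⟨a, b, hab, rfl, rfl⟩ := hu
    obtain ⟨a', b', hab', h4, h5⟩ := hv
    rcases a with _ | a <;> rcases b with _ | b <;> rcases a' with _ | a' <;>
      rcases b' with _ | b' <;> simp [e1, e2] at h4 h5 hab hab'
  have p123 : Packs (⊤ : SimpleGraph (GV m m')) ((Fin k ⊕ Fin k') ⊕ (Fin m × Fin m')) := by
    refine p12.sum p3 ?_ le_top le_top
    intro u v hu hv
    rcases hu with hu | hu
    · rw [SimpleGraph.map_adj] at hu
      obtain ⟨a, b, hab, rfl, rfl⟩ := hu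
      rcases hv with ⟨⟨x, hx⟩, ⟨y, hy⟩⟩ | ⟨⟨x, hx⟩, ⟨y, hy⟩⟩ <;>
        rcases a with _ | a <;> rcases b with _ | b <;> simp [e1] at hx hy
    · rw [SimpleGraph.map_adj] at hu
      obtain ⟨a, b, hab, rfl, rfl⟩ := hu
      rcases hv with ⟨⟨x, hx⟩, ⟨y, hy⟩⟩ | ⟨⟨x, hx⟩, ⟨y, hy⟩⟩ <;>
        rcases a with _ | a <;> rcases b with _ | b <;> simp [e2] at hx hy
  refine P_of_packs p123 ?_ ?_
  · simp; ring
  · simp

/-- Adding three vertices. -/
theorem P_add_three {m k : ℕ} (h : P (3 * m) k) : P (3 * (m + 1)) (k + m) := by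
  let e1 : (Fin m × Fin 3) ↪ ((Fin m × Fin 3) ⊕ (Fin 1 × Fin 3)) := ⟨Sum.inl, Sum.inl_injective⟩
  have c1 : Fintype.card (Fin m × Fin 3) = 3 * m := by
    simp [mul_comm]
  have p1 := (packs_of_P h c1).map e1
  have hd : Disjoint (Set.range fun x : Fin m × Fin 3 => (Sum.inl x : ((Fin m × Fin 3) ⊕ (Fin 1 × Fin 3))))
      (Set.range fun x : Fin 1 × Fin 3 => (Sum.inr x : ((Fin m × Fin 3) ⊕ (Fin 1 × Fin 3)))) := by
    rw [Set.disjoint_left]
    rintro _ ⟨x, rfl⟩ ⟨y, hy⟩
    simp at hy
  have p3 := packs_bip (fun x : Fin m × Fin 3 => (Sum.inl x : ((Fin m × Fin 3) ⊕ (Fin 1 × Fin 3))))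
    (fun x : Fin 1 × Fin 3 => (Sum.inr x : ((Fin m × Fin 3) ⊕ (Fin 1 × Fin 3))))
    (fun x y hxy => Sum.inl_injective hxy)
    (fun x y hxy => Sum.inr_injective hxy) hd
  have p13 : Packs (⊤ : SimpleGraph ((Fin m × Fin 3) ⊕ (Fin 1 × Fin 3))) (Fin k ⊕ (Fin m × Fin 1)) := by
    refine p1.sum p3 ?_ le_top le_top
    intro u v hu hv
    rw [SimpleGraph.map_adj] at hu
    obtain ⟨a, b, hab, rfl, rfl⟩ := hu
    rcases hv with ⟨⟨x, hx⟩, ⟨y, hy⟩⟩ | ⟨⟨x, hx⟩, ⟨y, hy⟩⟩
    · simp [e1] at hy
    · simp [e1] at hx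
  refine P_of_packs p13 ?_ ?_
  · simp; ring
  · simp

/-! ### Packings given by tables -/

/-- The graph of the pairs with a given colour. -/
def colGraph {p : ℕ} (c : Fin p → Fin p → ℕ) (hs : ∀ u v, c u v = c v u)
    (h0 : ∀ u, c u u = 0) (i : ℕ) : SimpleGraph (Fin p) where
  Adj u v := c u v = i + 1
  symm := ⟨fun u v h => by rw [hs]; exact h⟩
  loopless := ⟨fun u h => by rw [h0] at h; omega⟩

theorem P_of_colour {p k : ℕ} (c : Fin p → Fin p → ℕ) (hs : ∀ u v, c u v = c v u)
    (h0 : ∀ u, c u u = 0) (hn : ∀ i : Fin k, Nonplanar (colGraph c hs h0 i.val)) : P p k := by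
  refine ⟨fun i => colGraph c hs h0 i.val, fun i => le_top, hn, ?_⟩
  intro i j u v hi hj
  have h1 : c u v = i.val + 1 := hi
  have h2 : c u v = j.val + 1 := hj
  exact Fin.ext (by omega)

end Pool.Agent.Y296.Coarse
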