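import Pool.Agent.Y296.Coarse.Basic

set_option autoImplicit false

/-!
# Explicit packings of complete graphs
-/

namespace Pool.Agent.Y296.Coarse

/-- The colour table for `K_19`. -/
def tab19 : List (List ℕ) :=
  [[0, 18, 19, 1, 18, 19, 1, 18, 19, 1, 11, 11, 11, 14, 14, 14, 17, 17, 17],
   [18, 0, 19, 1, 2, 19, 1, 2, 19, 1, 2, 12, 12, 12, 15, 15, 15, 18, 18],
   [19, 19, 0, 1, 2, 3, 1, 2, 3, 1, 2, 3, 13, 13, 13, 16, 16, 16, 19],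
   [1, 1, 1, 0, 2, 3, 4, 2, 3, 4, 2, 3, 4, 14, 14, 14, 17, 17, 17],
   [18, 2, 2, 2, 0, 3, 4, 5, 3, 4, 5, 3, 4, 5, 15, 15, 15, 18, 18],
   [19, 19, 3, 3, 3, 0, 4, 5, 6, 4, 5, 6, 4, 5, 6, 16, 16, 16, 19],
   [1, 1, 1, 4, 4, 4, 0, 5, 6, 7, 5, 6, 7, 5, 6, 7, 17, 17, 17],
   [18, 2, 2, 2, 5, 5, 5, 0, 6, 7, 8, 6, 7, 8, 6, 7, 8, 18, 18],
   [19, 19, 3, 3, 3, 6, 6, 6, 0, 7, 8, 9, 7, 8, 9, 7, 8, 9, 19],
   [1, 1, 1, 4, 4, 4, 7, 7, 7, 0, 8, 9, 10, 8, 9, 10, 8, 9, 10],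
   [11, 2, 2, 2, 5, 5, 5, 8, 8, 8, 0, 9, 10, 11, 9, 10, 11, 9, 10],
   [11, 12, 3, 3, 3, 6, 6, 6, 9, 9, 9, 0, 10, 11, 12, 10, 11, 12, 10],
   [11, 12, 13, 4, 4, 4, 7, 7, 7, 10, 10, 10, 0, 11, 12, 13, 11, 12, 13],
   [14, 12, 13, 14, 5, 5, 5, 8, 8, 8, 11, 11, 11, 0, 12, 13, 14, 12, 13],
   [14, 15, 13, 14, 15, 6, 6, 6, 9, 9, 9, 12, 12, 12, 0, 13, 14, 15, 13],
   [14, 15, 16, 14, 15, 16, 7, 7, 7, 10, 10, 10, 13, 13, 13, 0, 14, 15, 16],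
   [17, 15, 16, 17, 15, 16, 17, 8, 8, 8, 11, 11, 11, 14, 14, 14, 0, 15, 16],
   [17, 18, 16, 17, 18, 16, 17, 18, 9, 9, 9, 12, 12, 12, 15, 15, 15, 0, 16],
   [17, 18, 19, 17, 18, 19, 17, 18, 19, 10, 10, 10, 13, 13, 13, 16, 16, 16, 0]]

/-- The vertices of the copies of `K₃,₃`. -/
def blk19 : List (List ℕ) :=
  [[0, 1, 2, 3, 6, 9], [1, 2, 3, 4, 7, 10], [2, 3, 4, 5, 8, 11], [3, 4, 5, 6, 9, 12],
   [4, 5, 6, 7, 10, 13], [5, 6, 7, 8, 11, 14], [6, 7, 8, 9, 12, 15], [7, 8, 9, 10, 13, 16],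
   [8, 9, 10, 11, 14, 17], [9, 10, 11, 12, 15, 18], [10, 11, 12, 13, 16, 0],
   [11, 12, 13, 14, 17, 1], [12, 13, 14, 15, 18, 2], [13, 14, 15, 16, 0, 3],
   [14, 15, 16, 17, 1, 4], [15, 16, 17, 18, 2, 5], [16, 17, 18, 0, 3, 6],
   [17, 18, 0, 1, 4, 7], [18, 0, 1, 2, 5, 8]]

/-- The colour of a pair. -/
def col19 (u v : Fin 19) : ℕ := (tab19.getD u.val []).getD v.val 0

theorem col19_symm : ∀ u v : Fin 19, col19 u v = col19 v u := by decide +kernel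

theorem col19_diag : ∀ u : Fin 19, col19 u u = 0 := by decide +kernel

/-- The `j`-th vertex of the `i`-th copy of `K₃,₃`. -/
def vk19 (i j : ℕ) : Fin 19 :=
  ⟨((blk19.getD i []).getD j 0) % 19, Nat.mod_lt _ (by norm_num)⟩

theorem k33_19 : ∀ i : Fin 19, (∀ a b : Fin 3, col19 (vk19 i.val a.val)
    (vk19 i.val (3 + b.val)) = i.val + 1) ∧
    (∀ a b : Fin 3, vk19 i.val a.val = vk19 i.val b.val → a = b) ∧
    (∀ a b : Fin 3, vk19 i.val (3 + a.val) = vk19 i.val (3 + b.val) → a = b) := by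
  decide +kernel

theorem P_19 : P 19 19 := by
  refine P_of_colour col19 col19_symm col19_diag ?_
  intro i
  obtain ⟨h1, h2, h3⟩ := k33_19 i
  exact nonplanar_K33 _ (fun a => vk19 i.val a.val) (fun b => vk19 i.val (3 + b.val))
    (fun a b => h2 a b) (fun a b => h3 a b) (fun a b => h1 a b)

/-- The colour table for `K_25`. -/
def tab25 : List (List ℕ) :=
  [[0, 1, 5, 1, 3, 1, 3, 21, 9, 21, 5, 21, 29, 23, 29, 5, 29, 27, 27, 9, 23, 27, 9, 23, 3],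
   [1, 0, 1, 6, 1, 4, 22, 4, 22, 10, 22, 6, 28, 30, 24, 30, 6, 30, 24, 28, 10, 24, 28, 10, 4],
   [5, 1, 0, 1, 7, 1, 7, 21, 5, 21, 11, 21, 29, 23, 29, 25, 29, 7, 11, 25, 23, 11, 25, 23, 5],
   [1, 6, 1, 0, 1, 8, 22, 8, 22, 6, 22, 12, 8, 30, 24, 30, 26, 30, 24, 12, 26, 24, 12, 26, 6],
   [3, 1, 7, 1, 0, 1, 13, 21, 3, 21, 7, 21, 29, 3, 29, 25, 29, 27, 27, 25, 13, 27, 25, 13, 7],
   [1, 4, 1, 8, 1, 0, 22, 14, 22, 4, 22, 8, 28, 30, 4, 30, 26, 30, 14, 28, 26, 14, 28, 26, 8],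
   [3, 22, 7, 22, 13, 22, 0, 14, 3, 33, 7, 13, 15, 3, 20, 15, 13, 20, 14, 33, 33, 14, 20, 15, 7],
   [21, 4, 21, 8, 21, 14, 14, 0, 9, 4, 31, 8, 15, 16, 4, 15, 16, 14, 16, 9, 31, 31, 9, 15, 8],
   [9, 22, 5, 22, 3, 22, 3, 9, 0, 10, 5, 32, 9, 16, 17, 5, 16, 17, 16, 17, 10, 32, 32, 10, 3],
   [21, 10, 21, 6, 21, 4, 33, 4, 10, 0, 11, 6, 18, 10, 17, 18, 6, 17, 11, 17, 18, 11, 33, 33, 4],
   [5, 22, 11, 22, 7, 22, 7, 31, 5, 11, 0, 12, 18, 19, 11, 18, 19, 7, 31, 12, 18, 19, 12, 31, 5],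
   [21, 6, 21, 12, 21, 8, 13, 8, 32, 6, 12, 0, 8, 19, 20, 12, 19, 20, 32, 32, 13, 19, 20, 13, 6],
   [29, 28, 29, 8, 29, 28, 15, 15, 9, 18, 18, 8, 0, 2, 28, 2, 26, 2, 15, 9, 26, 18, 9, 26, 8],
   [23, 30, 23, 30, 3, 30, 3, 16, 16, 10, 19, 19, 2, 0, 2, 23, 2, 27, 27, 16, 10, 27, 19, 10, 3],
   [29, 24, 29, 24, 29, 4, 20, 4, 17, 17, 11, 20, 28, 2, 0, 2, 24, 2, 11, 28, 17, 11, 28, 20, 4],
   [5, 30, 25, 30, 25, 30, 15, 15, 5, 18, 18, 12, 2, 23, 2, 0, 2, 25, 15, 12, 23, 18, 12, 23, 5],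
   [29, 6, 29, 26, 29, 26, 13, 16, 16, 6, 19, 19, 26, 2, 24, 2, 0, 2, 24, 16, 13, 24, 19, 13, 6],
   [27, 30, 7, 30, 27, 30, 20, 14, 17, 17, 7, 20, 2, 27, 2, 25, 2, 0, 14, 25, 17, 14, 25, 20, 7],
   [27, 24, 11, 24, 27, 14, 14, 16, 16, 11, 31, 32, 15, 27, 11, 15, 24, 14, 0, 16, 31, 31, 32, 15, 32],
   [9, 28, 25, 12, 25, 28, 33, 9, 17, 17, 12, 32, 9, 16, 28, 12, 16, 25, 16, 0, 17, 32, 32, 33, 33],
   [23, 10, 23, 26, 13, 26, 33, 31, 10, 18, 18, 13, 26, 10, 17, 23, 13, 17, 31, 17, 0, 18, 33, 33, 31],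
   [27, 24, 11, 24, 27, 14, 14, 31, 32, 11, 19, 19, 18, 27, 11, 18, 24, 14, 31, 32, 18, 0, 19, 31, 32],
   [9, 28, 25, 12, 25, 28, 20, 9, 32, 33, 12, 20, 9, 19, 28, 12, 19, 25, 32, 32, 33, 19, 0, 20, 33],
   [23, 10, 23, 26, 13, 26, 15, 15, 10, 33, 31, 13, 26, 10, 20, 23, 13, 20, 15, 33, 33, 31, 20, 0, 31],
   [3, 4, 5, 6, 7, 8, 7, 8, 3, 4, 5, 6, 8, 3, 4, 5, 6, 7, 32, 33, 31, 32, 33, 31, 0]]

/-- The vertices of the copies of `K₃,₃`. -/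
def blk25 : List (List ℕ) :=
  [[0, 2, 4, 1, 3, 5], [12, 14, 16, 13, 15, 17], [0, 8, 13, 4, 6, 24], [1, 9, 14, 5, 7, 24],
   [2, 10, 15, 0, 8, 24], [3, 11, 16, 1, 9, 24], [4, 6, 17, 2, 10, 24], [5, 7, 12, 3, 11, 24],
   [0, 7, 12, 8, 19, 22], [1, 8, 13, 9, 20, 23], [2, 9, 14, 10, 21, 18],
   [3, 10, 15, 11, 22, 19], [4, 11, 16, 6, 23, 20], [5, 6, 17, 7, 18, 21],
   [6, 7, 18, 12, 15, 23], [7, 8, 19, 13, 16, 18], [8, 9, 20, 14, 17, 19],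
   [9, 10, 21, 15, 12, 20], [10, 11, 22, 16, 13, 21], [11, 6, 23, 17, 14, 22],
   [0, 2, 4, 7, 9, 11], [1, 3, 5, 8, 10, 6], [0, 2, 15, 13, 20, 23], [1, 3, 16, 14, 21, 18],
   [2, 4, 17, 15, 22, 19], [3, 5, 12, 16, 23, 20], [4, 0, 13, 17, 18, 21],
   [5, 1, 14, 12, 19, 22], [0, 2, 4, 12, 14, 16], [1, 3, 5, 13, 15, 17]]

/-- The vertices of the subdivided copies of `K₃,₃`. -/
def sub25 : List (List ℕ) :=
  [[20, 10, 21, 23, 7, 18], [21, 11, 22, 18, 8, 19], [22, 6, 23, 19, 9, 20]]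

/-- The colour of a pair. -/
def col25 (u v : Fin 25) : ℕ := (tab25.getD u.val []).getD v.val 0

theorem col25_symm : ∀ u v : Fin 25, col25 u v = col25 v u := by decide +kernel

theorem col25_diag : ∀ u : Fin 25, col25 u u = 0 := by decide +kernel

/-- The `j`-th vertex of the `i`-th copy of `K₃,₃`. -/
def vk25 (i j : ℕ) : Fin 25 :=
  ⟨((blk25.getD i []).getD j 0) % 25, Nat.mod_lt _ (by norm_num)⟩

theorem k33_25 : ∀ i : Fin 30, (∀ a b : Fin 3, col25 (vk25 i.val a.val)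
    (vk25 i.val (3 + b.val)) = i.val + 1) ∧
    (∀ a b : Fin 3, vk25 i.val a.val = vk25 i.val b.val → a = b) ∧
    (∀ a b : Fin 3, vk25 i.val (3 + a.val) = vk25 i.val (3 + b.val) → a = b) := by
  decide +kernel

/-- The `j`-th vertex of the `i`-th subdivided copy of `K₃,₃`. -/
def vs25 (i j : ℕ) : Fin 25 :=
  ⟨((sub25.getD i []).getD j 0) % 25, Nat.mod_lt _ (by norm_num)⟩

theorem s33_25 : ∀ i : Fin 3, (∀ a b : Fin 3, ¬ (a = 0 ∧ b = 0) → col25 (vs25 i.val a.val)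
    (vs25 i.val (3 + b.val)) = 30 + i.val + 1) ∧
    (∀ a b : Fin 3, vs25 i.val a.val = vs25 i.val b.val → a = b) ∧
    (∀ a b : Fin 3, vs25 i.val (3 + a.val) = vs25 i.val (3 + b.val) → a = b) ∧
    (∀ a b : Fin 3, vs25 i.val a.val ≠ vs25 i.val (3 + b.val)) ∧
    (∀ a : Fin 3, vs25 i.val a.val ≠ 24) ∧
    (∀ a : Fin 3, vs25 i.val (3 + a.val) ≠ 24) ∧
    col25 (vs25 i.val 0) 24 = 30 + i.val + 1 ∧
    col25 (vs25 i.val 3) 24 = 30 + i.val + 1 := by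
  decide +kernel

theorem P_25 : P 25 33 := by
  refine P_of_colour col25 col25_symm col25_diag ?_
  intro i
  rcases Nat.lt_or_ge i.val 30 with hi | hi
  · obtain ⟨h1, h2, h3⟩ := k33_25 ⟨i.val, hi⟩
    exact nonplanar_K33 _ (fun a => vk25 i.val a.val) (fun b => vk25 i.val (3 + b.val))
      (fun a b => h2 a b) (fun a b => h3 a b) (fun a b => h1 a b)
  · have h4 : 30 + (i.val - 30) = i.val := by omega
    have h5 := s33_25 ⟨i.val - 30, by omega⟩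
    simp only [h4] at h5
    obtain ⟨h1, h2, h3, k1, k2, k3, k4, k5⟩ := h5
    exact nonplanar_K33_sub _ (fun a => vs25 (i.val - 30) a.val)
      (fun b => vs25 (i.val - 30) (3 + b.val)) 24
      (fun a b => h2 a b) (fun a b => h3 a b) k1 k2 k3 (fun a b hab => h1 a b hab) k4 k5

/-- The colour table for `K_34`. -/
def tab34 : List (List ℕ) :=
  [[0, 8, 7, 58, 58, 58, 57, 57, 57, 13, 31, 28, 13, 8, 13, 48, 48, 48, 39, 39, 39, 7, 7, 10, 31, 8, 10, 52, 52, 52, 28, 31, 28, 10],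
   [8, 0, 9, 58, 58, 58, 57, 57, 57, 29, 14, 32, 14, 14, 9, 48, 48, 48, 39, 39, 39, 11, 8, 8, 11, 32, 9, 52, 52, 52, 29, 29, 32, 11],
   [7, 9, 0, 58, 58, 58, 57, 57, 57, 33, 30, 15, 7, 15, 15, 48, 48, 48, 39, 39, 39, 9, 12, 9, 7, 12, 33, 52, 52, 52, 33, 30, 30, 12],
   [58, 58, 58, 0, 1, 3, 27, 27, 27, 34, 30, 36, 54, 54, 54, 59, 59, 59, 3, 21, 1, 11, 1, 3, 11, 36, 34, 36, 34, 21, 21, 30, 30, 11],
   [58, 58, 58, 1, 0, 2, 27, 27, 27, 34, 35, 28, 54, 54, 54, 59, 59, 59, 2, 1, 22, 1, 12, 2, 35, 12, 34, 22, 34, 35, 28, 22, 28, 12],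
   [58, 58, 58, 3, 2, 0, 27, 27, 27, 29, 35, 36, 54, 54, 54, 59, 59, 59, 23, 3, 2, 3, 2, 10, 35, 36, 10, 36, 23, 35, 29, 29, 23, 10],
   [57, 57, 57, 27, 27, 27, 0, 16, 18, 18, 30, 15, 16, 15, 15, 24, 16, 18, 56, 56, 56, 50, 50, 50, 45, 45, 45, 55, 55, 55, 24, 30, 30, 24],
   [57, 57, 57, 27, 27, 27, 16, 0, 17, 13, 16, 28, 13, 17, 13, 16, 25, 17, 56, 56, 56, 50, 50, 50, 45, 45, 45, 55, 55, 55, 28, 25, 28, 25],
   [57, 57, 57, 27, 27, 27, 18, 17, 0, 29, 14, 17, 14, 14, 18, 18, 17, 26, 56, 56, 56, 50, 50, 50, 45, 45, 45, 55, 55, 55, 29, 29, 26, 26],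
   [13, 29, 33, 34, 34, 29, 18, 13, 29, 0, 14, 13, 14, 14, 18, 18, 62, 60, 60, 62, 60, 53, 53, 53, 44, 44, 44, 34, 33, 33, 46, 46, 46, 62],
   [31, 14, 30, 30, 35, 35, 30, 16, 14, 14, 0, 15, 16, 15, 15, 61, 16, 60, 61, 61, 60, 53, 53, 53, 44, 44, 44, 31, 35, 31, 46, 46, 46, 60],
   [28, 32, 15, 36, 28, 36, 15, 28, 17, 13, 15, 0, 13, 17, 13, 61, 62, 17, 61, 62, 62, 53, 53, 53, 44, 44, 44, 32, 32, 36, 46, 46, 46, 61],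
   [13, 14, 7, 54, 54, 54, 16, 13, 14, 14, 16, 13, 0, 4, 6, 16, 6, 60, 60, 4, 60, 7, 7, 6, 19, 19, 19, 38, 38, 38, 47, 47, 47, 4],
   [8, 14, 15, 54, 54, 54, 15, 17, 14, 14, 15, 17, 4, 0, 5, 61, 17, 4, 61, 61, 5, 4, 8, 8, 19, 19, 19, 38, 38, 38, 47, 47, 47, 5],
   [13, 9, 15, 54, 54, 54, 15, 13, 18, 18, 15, 13, 6, 5, 0, 5, 62, 18, 6, 62, 62, 9, 5, 9, 19, 19, 19, 38, 38, 38, 47, 47, 47, 6],
   [48, 48, 48, 59, 59, 59, 24, 16, 18, 18, 61, 61, 16, 61, 5, 0, 16, 18, 23, 21, 5, 49, 49, 49, 37, 37, 37, 24, 23, 21, 21, 24, 23, 5],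
   [48, 48, 48, 59, 59, 59, 16, 25, 17, 62, 16, 62, 6, 17, 62, 16, 0, 17, 6, 21, 22, 49, 49, 49, 37, 37, 37, 22, 25, 21, 21, 22, 25, 6],
   [48, 48, 48, 59, 59, 59, 18, 17, 26, 60, 60, 17, 60, 4, 18, 18, 17, 0, 23, 4, 22, 49, 49, 49, 37, 37, 37, 22, 23, 26, 26, 22, 23, 4],
   [39, 39, 39, 3, 2, 23, 56, 56, 56, 60, 61, 61, 60, 61, 6, 23, 6, 23, 0, 3, 2, 3, 2, 6, 40, 40, 40, 51, 51, 51, 20, 20, 20, 60],
   [39, 39, 39, 21, 1, 3, 56, 56, 56, 62, 61, 62, 4, 61, 62, 21, 21, 4, 3, 0, 1, 4, 1, 3, 40, 40, 40, 51, 51, 51, 20, 20, 20, 61],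
   [39, 39, 39, 1, 22, 2, 56, 56, 56, 60, 60, 62, 60, 5, 62, 5, 22, 22, 2, 1, 0, 1, 5, 2, 40, 40, 40, 51, 51, 51, 20, 20, 20, 62],
   [7, 11, 9, 11, 1, 3, 50, 50, 50, 53, 53, 53, 7, 4, 9, 49, 49, 49, 3, 4, 1, 0, 1, 3, 7, 11, 9, 41, 41, 41, 42, 42, 42, 4],
   [7, 8, 12, 1, 12, 2, 50, 50, 50, 53, 53, 53, 7, 8, 5, 49, 49, 49, 2, 1, 5, 1, 0, 2, 7, 8, 12, 41, 41, 41, 42, 42, 42, 5],
   [10, 8, 9, 3, 2, 10, 50, 50, 50, 53, 53, 53, 6, 8, 9, 49, 49, 49, 6, 3, 2, 3, 2, 0, 10, 8, 9, 41, 41, 41, 42, 42, 42, 6],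
   [31, 11, 7, 11, 35, 35, 45, 45, 45, 44, 44, 44, 19, 19, 19, 37, 37, 37, 40, 40, 40, 7, 7, 10, 0, 11, 10, 31, 35, 31, 43, 43, 43, 10],
   [8, 32, 12, 36, 12, 36, 45, 45, 45, 44, 44, 44, 19, 19, 19, 37, 37, 37, 40, 40, 40, 11, 8, 8, 11, 0, 12, 32, 32, 36, 43, 43, 43, 11],
   [10, 9, 33, 34, 34, 10, 45, 45, 45, 44, 44, 44, 19, 19, 19, 37, 37, 37, 40, 40, 40, 9, 12, 9, 10, 12, 0, 34, 33, 33, 43, 43, 43, 12],
   [52, 52, 52, 36, 22, 36, 55, 55, 55, 34, 31, 32, 38, 38, 38, 24, 22, 22, 51, 51, 51, 41, 41, 41, 31, 32, 34, 0, 34, 36, 24, 31, 32, 24],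
   [52, 52, 52, 34, 34, 23, 55, 55, 55, 33, 35, 32, 38, 38, 38, 23, 25, 23, 51, 51, 51, 41, 41, 41, 35, 32, 33, 34, 0, 35, 33, 25, 32, 25],
   [52, 52, 52, 21, 35, 35, 55, 55, 55, 33, 31, 36, 38, 38, 38, 21, 21, 26, 51, 51, 51, 41, 41, 41, 31, 36, 33, 36, 35, 0, 33, 31, 26, 26],
   [28, 29, 33, 21, 28, 29, 24, 28, 29, 46, 46, 46, 47, 47, 47, 21, 21, 26, 20, 20, 20, 42, 42, 42, 43, 43, 43, 24, 33, 33, 0, 24, 26, 26],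
   [31, 29, 30, 30, 22, 29, 30, 25, 29, 46, 46, 46, 47, 47, 47, 24, 22, 22, 20, 20, 20, 42, 42, 42, 43, 43, 43, 31, 25, 31, 24, 0, 25, 24],
   [28, 32, 30, 30, 28, 23, 30, 28, 26, 46, 46, 46, 47, 47, 47, 23, 25, 23, 20, 20, 20, 42, 42, 42, 43, 43, 43, 32, 32, 26, 26, 25, 0, 25],
   [10, 11, 12, 11, 12, 10, 24, 25, 26, 62, 60, 61, 4, 5, 6, 5, 6, 4, 60, 61, 62, 4, 5, 6, 10, 11, 12, 24, 25, 26, 26, 24, 25, 0]]

/-- The vertices of the copies of `K₃,₃`. -/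
def blk34 : List (List ℕ) :=
  [[3, 19, 21, 4, 20, 22], [4, 20, 22, 5, 18, 23], [5, 18, 23, 3, 19, 21],
   [12, 17, 21, 13, 19, 33], [13, 15, 22, 14, 20, 33], [14, 16, 23, 12, 18, 33],
   [0, 12, 24, 2, 21, 22], [1, 13, 25, 0, 22, 23], [2, 14, 26, 1, 23, 21],
   [0, 5, 24, 23, 26, 33], [1, 3, 25, 21, 24, 33], [2, 4, 26, 22, 25, 33],
   [0, 7, 11, 9, 12, 14], [1, 8, 9, 10, 13, 12], [2, 6, 10, 11, 14, 13],
   [6, 10, 15, 7, 12, 16], [7, 11, 16, 8, 13, 17], [8, 9, 17, 6, 14, 15],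
   [12, 13, 14, 24, 25, 26], [18, 19, 20, 30, 31, 32], [3, 15, 16, 19, 29, 30],
   [4, 16, 17, 20, 27, 31], [5, 17, 15, 18, 28, 32], [6, 27, 31, 15, 30, 33],
   [7, 28, 32, 16, 31, 33], [8, 29, 30, 17, 32, 33], [3, 4, 5, 6, 7, 8],
   [0, 4, 7, 11, 30, 32], [1, 5, 8, 9, 31, 30], [2, 3, 6, 10, 32, 31],
   [0, 27, 29, 10, 24, 31], [1, 28, 27, 11, 25, 32], [2, 29, 28, 9, 26, 30],
   [3, 4, 27, 9, 26, 28], [4, 5, 28, 10, 24, 29], [5, 3, 29, 11, 25, 27],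
   [15, 16, 17, 24, 25, 26], [12, 13, 14, 27, 28, 29], [0, 1, 2, 18, 19, 20],
   [18, 19, 20, 24, 25, 26], [21, 22, 23, 27, 28, 29], [21, 22, 23, 30, 31, 32],
   [24, 25, 26, 30, 31, 32], [9, 10, 11, 24, 25, 26], [6, 7, 8, 24, 25, 26],
   [9, 10, 11, 30, 31, 32], [12, 13, 14, 30, 31, 32], [0, 1, 2, 15, 16, 17],
   [15, 16, 17, 21, 22, 23], [6, 7, 8, 21, 22, 23], [18, 19, 20, 27, 28, 29],
   [0, 1, 2, 27, 28, 29], [9, 10, 11, 21, 22, 23], [3, 4, 5, 12, 13, 14],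
   [6, 7, 8, 27, 28, 29], [6, 7, 8, 18, 19, 20], [0, 1, 2, 6, 7, 8], [0, 1, 2, 3, 4, 5],
   [3, 4, 5, 15, 16, 17]]

/-- The vertices of the subdivided copies of `K₃,₃`. -/
def sub34 : List (List ℕ) :=
  [[18, 20, 17, 10, 12, 9], [19, 18, 15, 11, 13, 10], [20, 19, 16, 9, 14, 11]]

/-- The colour of a pair. -/
def col34 (u v : Fin 34) : ℕ := (tab34.getD u.val []).getD v.val 0

theorem col34_symm : ∀ u v : Fin 34, col34 u v = col34 v u := by decide +kernel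

theorem col34_diag : ∀ u : Fin 34, col34 u u = 0 := by decide +kernel

/-- The `j`-th vertex of the `i`-th copy of `K₃,₃`. -/
def vk34 (i j : ℕ) : Fin 34 :=
  ⟨((blk34.getD i []).getD j 0) % 34, Nat.mod_lt _ (by norm_num)⟩

theorem k33_34 : ∀ i : Fin 59, (∀ a b : Fin 3, col34 (vk34 i.val a.val)
    (vk34 i.val (3 + b.val)) = i.val + 1) ∧
    (∀ a b : Fin 3, vk34 i.val a.val = vk34 i.val b.val → a = b) ∧
    (∀ a b : Fin 3, vk34 i.val (3 + a.val) = vk34 i.val (3 + b.val) → a = b) := by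
  decide +kernel

/-- The `j`-th vertex of the `i`-th subdivided copy of `K₃,₃`. -/
def vs34 (i j : ℕ) : Fin 34 :=
  ⟨((sub34.getD i []).getD j 0) % 34, Nat.mod_lt _ (by norm_num)⟩

theorem s33_34 : ∀ i : Fin 3, (∀ a b : Fin 3, ¬ (a = 0 ∧ b = 0) → col34 (vs34 i.val a.val)
    (vs34 i.val (3 + b.val)) = 59 + i.val + 1) ∧
    (∀ a b : Fin 3, vs34 i.val a.val = vs34 i.val b.val → a = b) ∧
    (∀ a b : Fin 3, vs34 i.val (3 + a.val) = vs34 i.val (3 + b.val) → a = b) ∧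
    (∀ a b : Fin 3, vs34 i.val a.val ≠ vs34 i.val (3 + b.val)) ∧
    (∀ a : Fin 3, vs34 i.val a.val ≠ 33) ∧
    (∀ a : Fin 3, vs34 i.val (3 + a.val) ≠ 33) ∧
    col34 (vs34 i.val 0) 33 = 59 + i.val + 1 ∧
    col34 (vs34 i.val 3) 33 = 59 + i.val + 1 := by
  decide +kernel

theorem P_34 : P 34 62 := by
  refine P_of_colour col34 col34_symm col34_diag ?_
  intro i
  rcases Nat.lt_or_ge i.val 59 with hi | hi
  · obtain ⟨h1, h2, h3⟩ := k33_34 ⟨i.val, hi⟩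
    exact nonplanar_K33 _ (fun a => vk34 i.val a.val) (fun b => vk34 i.val (3 + b.val))
      (fun a b => h2 a b) (fun a b => h3 a b) (fun a b => h1 a b)
  · have h4 : 59 + (i.val - 59) = i.val := by omega
    have h5 := s33_34 ⟨i.val - 59, by omega⟩
    simp only [h4] at h5
    obtain ⟨h1, h2, h3, k1, k2, k3, k4, k5⟩ := h5
    exact nonplanar_K33_sub _ (fun a => vs34 (i.val - 59) a.val)
      (fun b => vs34 (i.val - 59) (3 + b.val)) 33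
      (fun a b => h2 a b) (fun a b => h3 a b) k1 k2 k3 (fun a b hab => h1 a b hab) k4 k5

/-- The colour table for `K_21`. -/
def tab21 : List (List ℕ) :=
  [[0, 17, 17, 17, 17, 18, 18, 18, 18, 7, 13, 4, 7, 7, 10, 4, 10, 13, 4, 10, 13],
   [17, 0, 17, 17, 17, 19, 15, 6, 9, 19, 19, 19, 12, 9, 9, 12, 15, 6, 12, 15, 6],
   [17, 17, 0, 17, 17, 5, 20, 5, 5, 20, 13, 4, 20, 20, 10, 4, 10, 13, 4, 10, 13],
   [17, 17, 17, 0, 17, 8, 2, 21, 2, 1, 21, 4, 21, 2, 21, 4, 1, 8, 4, 1, 8],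
   [17, 17, 17, 17, 0, 14, 14, 14, 22, 1, 13, 22, 12, 22, 22, 12, 1, 13, 12, 1, 13],
   [18, 19, 5, 8, 14, 0, 18, 18, 18, 19, 19, 19, 8, 11, 8, 14, 5, 11, 14, 5, 11],
   [18, 15, 20, 2, 14, 18, 0, 18, 18, 20, 15, 15, 20, 20, 10, 14, 10, 2, 14, 10, 2],
   [18, 6, 5, 21, 14, 18, 18, 0, 18, 6, 21, 6, 21, 11, 21, 14, 5, 11, 14, 5, 11],
   [18, 9, 5, 2, 22, 18, 18, 18, 0, 3, 3, 22, 3, 22, 22, 9, 5, 2, 9, 5, 2],
   [7, 19, 20, 1, 1, 19, 20, 6, 3, 0, 19, 19, 20, 20, 1, 3, 7, 6, 3, 7, 6],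
   [13, 19, 13, 21, 13, 19, 15, 21, 3, 19, 0, 19, 21, 11, 21, 3, 15, 11, 3, 15, 11],
   [4, 19, 4, 4, 22, 19, 15, 6, 22, 19, 19, 0, 12, 22, 22, 12, 15, 6, 12, 15, 6],
   [7, 12, 20, 21, 12, 8, 20, 21, 3, 20, 21, 12, 0, 20, 21, 3, 7, 8, 3, 7, 8],
   [7, 9, 20, 2, 22, 11, 20, 11, 22, 20, 11, 22, 20, 0, 22, 9, 7, 2, 9, 7, 2],
   [10, 9, 10, 21, 22, 8, 10, 21, 22, 1, 21, 22, 21, 22, 0, 9, 1, 8, 9, 1, 8],
   [4, 12, 4, 4, 12, 14, 14, 14, 9, 3, 3, 12, 3, 9, 9, 0, 0, 0, 16, 16, 16],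
   [10, 15, 10, 1, 1, 5, 10, 5, 5, 7, 15, 15, 7, 7, 1, 0, 0, 0, 16, 16, 16],
   [13, 6, 13, 8, 13, 11, 2, 11, 2, 6, 11, 6, 8, 2, 8, 0, 0, 0, 16, 16, 16],
   [4, 12, 4, 4, 12, 14, 14, 14, 9, 3, 3, 12, 3, 9, 9, 16, 16, 16, 0, 0, 0],
   [10, 15, 10, 1, 1, 5, 10, 5, 5, 7, 15, 15, 7, 7, 1, 16, 16, 16, 0, 0, 0],
   [13, 6, 13, 8, 13, 11, 2, 11, 2, 6, 11, 6, 8, 2, 8, 16, 16, 16, 0, 0, 0]]

/-- The vertices of the copies of `K₃,₃`. -/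
def blk21 : List (List ℕ) :=
  [[3, 4, 14, 9, 16, 19], [3, 17, 20, 6, 8, 13], [8, 15, 18, 9, 10, 12],
   [0, 2, 3, 11, 15, 18], [2, 16, 19, 5, 7, 8], [1, 9, 11, 7, 17, 20], [0, 16, 19, 9, 12, 13],
   [3, 12, 14, 5, 17, 20], [1, 15, 18, 8, 13, 14], [0, 2, 6, 14, 16, 19],
   [5, 7, 10, 13, 17, 20], [1, 4, 11, 12, 15, 18], [0, 2, 4, 10, 17, 20],
   [4, 15, 18, 5, 6, 7], [1, 10, 11, 6, 16, 19], [15, 16, 17, 18, 19, 20]]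

/-- The vertices of the copies of `K₅`. -/
def fiv21 : List (List ℕ) :=
  [[0, 1, 2, 3, 4], [0, 5, 6, 7, 8], [1, 5, 9, 10, 11], [2, 6, 9, 12, 13], [3, 7, 10, 12, 14],
   [4, 8, 11, 13, 14]]

/-- The colour of a pair. -/
def col21 (u v : Fin 21) : ℕ := (tab21.getD u.val []).getD v.val 0

theorem col21_symm : ∀ u v : Fin 21, col21 u v = col21 v u := by decide +kernel

theorem col21_diag : ∀ u : Fin 21, col21 u u = 0 := by decide +kernel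

/-- The `j`-th vertex of the `i`-th copy of `K₃,₃`. -/
def vk21 (i j : ℕ) : Fin 21 :=
  ⟨((blk21.getD i []).getD j 0) % 21, Nat.mod_lt _ (by norm_num)⟩

theorem k33_21 : ∀ i : Fin 16, (∀ a b : Fin 3, col21 (vk21 i.val a.val)
    (vk21 i.val (3 + b.val)) = i.val + 1) ∧
    (∀ a b : Fin 3, vk21 i.val a.val = vk21 i.val b.val → a = b) ∧
    (∀ a b : Fin 3, vk21 i.val (3 + a.val) = vk21 i.val (3 + b.val) → a = b) := by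
  decide +kernel

/-- The `j`-th vertex of the `i`-th copy of `K₅`. -/
def vf21 (i j : ℕ) : Fin 21 :=
  ⟨((fiv21.getD i []).getD j 0) % 21, Nat.mod_lt _ (by norm_num)⟩

theorem k5_21 : ∀ i : Fin 6, ∀ a b : Fin 5, a ≠ b → col21 (vf21 i.val a.val)
    (vf21 i.val b.val) = 16 + i.val + 1 := by
  decide +kernel

theorem P_21 : P 21 22 := by
  refine P_of_colour col21 col21_symm col21_diag ?_
  intro i
  rcases Nat.lt_or_ge i.val 16 with hi | hi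
  · obtain ⟨h1, h2, h3⟩ := k33_21 ⟨i.val, hi⟩
    exact nonplanar_K33 _ (fun a => vk21 i.val a.val) (fun b => vk21 i.val (3 + b.val))
      (fun a b => h2 a b) (fun a b => h3 a b) (fun a b => h1 a b)
  · have h4 : 16 + (i.val - 16) = i.val := by omega
    have h5 := k5_21 ⟨i.val - 16, by omega⟩
    simp only [h4] at h5
    exact nonplanar_K5 _ (fun a => vf21 (i.val - 16) a.val) (fun a b hab => h5 a b hab)

end Pool.Agent.Y296.Coarse
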