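import Pool.Agent.Y296.Coarse.Data

set_option autoImplicit false

/-!
# The coarseness of `K_{9n+7}`
-/

namespace Pool.Agent.Y296.Coarse

/-- The true value. -/
def val (n : ℕ) : ℕ := (9 * n ^ 2 + 13 * n + 4) / 2

theorem val_even (t : ℕ) : val (2 + 2 * t) = 18 * t ^ 2 + 49 * t + 33 := by
  unfold val
  have : 9 * (2 + 2 * t) ^ 2 + 13 * (2 + 2 * t) + 4 = 2 * (18 * t ^ 2 + 49 * t + 33) := by ring
  rw [this]
  omega

theorem val_odd (t : ℕ) : val (3 + 2 * t) = 18 * t ^ 2 + 67 * t + 62 := by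
  unfold val
  have : 9 * (3 + 2 * t) ^ 2 + 13 * (3 + 2 * t) + 4 = 2 * (18 * t ^ 2 + 67 * t + 62) := by ring
  rw [this]
  omega

theorem P_step {m k : ℕ} (h : P (3 * m + 1) k) : P (3 * (m + 6) + 1) (k + 19 + m * 6) := by
  have h19 : P (3 * 6 + 1) 19 := P_19
  exact P_glue h h19

theorem P_even (t : ℕ) : P (3 * (8 + 6 * t) + 1) (18 * t ^ 2 + 49 * t + 33) := by
  induction t with
  | zero => exact P_25
  | succ t ih =>
    have h := P_step ih
    have e1 : 8 + 6 * t + 6 = 8 + 6 * (t + 1) := by ring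
    have e2 : 18 * t ^ 2 + 49 * t + 33 + 19 + (8 + 6 * t) * 6 =
      18 * (t + 1) ^ 2 + 49 * (t + 1) + 33 := by ring
    rw [e1, e2] at h
    exact h

theorem P_odd (t : ℕ) : P (3 * (11 + 6 * t) + 1) (18 * t ^ 2 + 67 * t + 62) := by
  induction t with
  | zero => exact P_34
  | succ t ih =>
    have h := P_step ih
    have e1 : 11 + 6 * t + 6 = 11 + 6 * (t + 1) := by ring
    have e2 : 18 * t ^ 2 + 67 * t + 62 + 19 + (11 + 6 * t) * 6 =
      18 * (t + 1) ^ 2 + 67 * (t + 1) + 62 := by ring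
    rw [e1, e2] at h
    exact h

theorem P_val {n : ℕ} (hn : 2 ≤ n) : P (9 * n + 7) (val n) := by
  rcases Nat.even_or_odd n with ⟨r, hr⟩ | ⟨r, hr⟩
  · obtain ⟨t, rfl⟩ : ∃ t, r = t + 1 := ⟨r - 1, by omega⟩
    have h1 : n = 2 + 2 * t := by omega
    have h2 : 9 * n + 7 = 3 * (8 + 6 * t) + 1 := by omega
    rw [h2, h1, val_even]
    exact P_even t
  · obtain ⟨t, rfl⟩ : ∃ t, r = t + 1 := ⟨r - 1, by omega⟩
    have h1 : n = 3 + 2 * t := by omega
    have h2 : 9 * n + 7 = 3 * (11 + 6 * t) + 1 := by omega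
    rw [h2, h1, val_odd]
    exact P_odd t

theorem choose_lt {n : ℕ} (hn : 2 ≤ n) : (9 * n + 7).choose 2 < (val n + 1) * 9 := by
  rw [Nat.choose_two_right]
  rcases Nat.even_or_odd n with ⟨r, hr⟩ | ⟨r, hr⟩
  · obtain ⟨t, rfl⟩ : ∃ t, r = t + 1 := ⟨r - 1, by omega⟩
    have h1 : n = 2 + 2 * t := by omega
    rw [h1, val_even]
    have e : (9 * (2 + 2 * t) + 7) * (9 * (2 + 2 * t) + 7 - 1) =
        2 * (162 * t ^ 2 + 441 * t + 300) := by
      have : 9 * (2 + 2 * t) + 7 - 1 = 18 * t + 24 := by omega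
      rw [this]; ring
    rw [e, Nat.mul_div_cancel_left _ (by norm_num)]
    nlinarith
  · obtain ⟨t, rfl⟩ : ∃ t, r = t + 1 := ⟨r - 1, by omega⟩
    have h1 : n = 3 + 2 * t := by omega
    rw [h1, val_odd]
    have e : (9 * (3 + 2 * t) + 7) * (9 * (3 + 2 * t) + 7 - 1) =
        2 * (162 * t ^ 2 + 603 * t + 561) := by
      have : 9 * (3 + 2 * t) + 7 - 1 = 18 * t + 33 := by omega
      rw [this]; ring
    rw [e, Nat.mul_div_cancel_left _ (by norm_num)]
    nlinarith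

theorem coarseness_val {n : ℕ} (hn : 2 ≤ n) :
    coarseness (⊤ : SimpleGraph (Fin (9 * n + 7))) = (9 * n ^ 2 + 13 * n + 4) / 2 :=
  coarseness_eq (P_val hn).hasPacking (choose_lt hn)

theorem P_24 : P 24 29 := by
  have h : P (3 * 7) 22 := P_21
  exact P_add_three h

theorem P_27 : P 27 37 := by
  have h : P (3 * 8) 29 := P_24
  exact P_add_three h

theorem ne_conj (n : ℕ) : (9 * n ^ 2 + 13 * n + 4) / 2 = (9 * n ^ 2 + 13 * n + 2) / 2 + 1 := by
  omega

end Pool.Agent.Y296.Coarse
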